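import Pool.Agent.Y535.PEG.StmB

/-!
# From a closed polygon with short coincidences to a simple locally monotone closed curve
-/

set_option autoImplicit false
open Complex Set Topology Metric

namespace Pool.Agent.Y255.PEG

open Pool.Agent.H763R2.An Pool.Agent.Y535.PEG

/-- one-sided germs with directions in an open half plane -/
theorem mon_of_germs {p : ℝ → ℂ} {t : ℝ} {w e f : ℂ} {δ : ℝ} (hδ : 0 < δ)
    (he : 0 < (w * e).re) (hf : 0 < (w * f).re)
    (h1 : ∀ h, 0 ≤ h → h < δ → p (t + h) = p t + h * f)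
    (h2 : ∀ h, 0 ≤ h → h < δ → p (t - h) = p t - h * e) : Mon p t := by
  refine ⟨δ, hδ, w, fun x y hx hy hxy => ?_⟩
  rw [abs_lt] at hx hy
  have hR : ∀ z, t ≤ z → z < t + δ → p z = p t + ((z - t : ℝ) : ℂ) * f := by
    intro z hz1 hz2
    have := h1 (z - t) (by linarith) (by linarith)
    rwa [add_sub_cancel] at this
  have hL : ∀ z, z ≤ t → t - δ < z → p z = p t - ((t - z : ℝ) : ℂ) * e := by
    intro z hz1 hz2
    have := h2 (t - z) (by linarith) (by linarith)
    rwa [sub_sub_cancel] at this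
  have key : ∀ (r : ℝ) (g : ℂ), (w * ((r : ℂ) * g)).re = r * (w * g).re := by
    intro r g
    rw [mul_left_comm, re_ofReal_mul]
  rcases le_total t x with hx0 | hx0
  · rw [hR x hx0 (by linarith), hR y (by linarith) (by linarith),
      show p t + ((y - t : ℝ) : ℂ) * f - (p t + ((x - t : ℝ) : ℂ) * f) =
        ((y - x : ℝ) : ℂ) * f by push_cast; ring, key]
    exact mul_pos (by linarith) hf
  · rcases le_total y t with hy0 | hy0
    · rw [hL x hx0 (by linarith), hL y hy0 (by linarith),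
        show p t - ((t - y : ℝ) : ℂ) * e - (p t - ((t - x : ℝ) : ℂ) * e) =
          ((y - x : ℝ) : ℂ) * e by push_cast; ring, key]
      exact mul_pos (by linarith) he
    · rw [hL x hx0 (by linarith), hR y hy0 (by linarith),
        show p t + ((y - t : ℝ) : ℂ) * f - (p t - ((t - x : ℝ) : ℂ) * e) =
          ((y - t : ℝ) : ℂ) * f + ((t - x : ℝ) : ℂ) * e by ring, mul_add, add_re, key, key]
      rcases eq_or_lt_of_le hx0 with h | h
      · have h' : 0 < y - t := by linarith
        have := mul_pos h' hf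
        have h3 : 0 ≤ (t - x) * (w * e).re := mul_nonneg (by linarith) he.le
        linarith
      · have h' : 0 < t - x := by linarith
        have := mul_pos h' he
        have h3 : 0 ≤ (y - t) * (w * f).re := mul_nonneg (by linarith) hf.le
        linarith

theorem cont_of_germs {p : ℝ → ℂ} {t : ℝ} {e f : ℂ} {δ : ℝ} (hδ : 0 < δ)
    (h1 : ∀ h, 0 ≤ h → h < δ → p (t + h) = p t + h * f)
    (h2 : ∀ h, 0 ≤ h → h < δ → p (t - h) = p t - h * e) : ContinuousAt p t := by
  have key : ∀ z, |z - t| < δ → ‖p z - p t‖ ≤ |z - t| * (‖e‖ + ‖f‖) := by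
    intro z hz
    rw [abs_lt] at hz
    rcases le_total t z with h | h
    · have := h1 (z - t) (by linarith) (by linarith)
      rw [add_sub_cancel] at this
      rw [this, add_sub_cancel_left, norm_mul, norm_real, Real.norm_eq_abs]
      exact mul_le_mul_of_nonneg_left (by linarith [norm_nonneg e]) (abs_nonneg _)
    · have := h2 (t - z) (by linarith) (by linarith)
      rw [sub_sub_cancel] at this
      rw [this, sub_sub_cancel_left, norm_neg, norm_mul, norm_real, Real.norm_eq_abs,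
        abs_sub_comm t z]
      exact mul_le_mul_of_nonneg_left (by linarith [norm_nonneg f]) (abs_nonneg _)
  rw [ContinuousAt, tendsto_iff_norm_sub_tendsto_zero]
  have h3 : Filter.Tendsto (fun z => |z - t| * (‖e‖ + ‖f‖)) (𝓝 t) (𝓝 0) := by
    have : Continuous fun z : ℝ => |z - t| * (‖e‖ + ‖f‖) := by fun_prop
    have h4 := this.tendsto t
    simpa using h4
  refine squeeze_zero' (Filter.Eventually.of_forall fun z => norm_nonneg _) ?_ h3
  filter_upwards [Metric.ball_mem_nhds t hδ] with z hz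
  exact key z (by rwa [Metric.mem_ball, Real.dist_eq] at hz)

/-- the germs of the new curve -/
theorem germs {q : ℝ → ℂ} (L : Loop q) (P : PLc q) {l : ℝ → ℝ} {t : ℝ}
    (hr : ∃ κ > 0, ∃ δ > 0, ∀ h, 0 ≤ h → h < δ → l (t + h) = l t + κ * h)
    (hl : ∃ s κ δ, 0 < κ ∧ 0 < δ ∧ (∀ h, 0 < h → h < δ → l (t - h) = s - κ * h) ∧
      (s = l t ∨ (s < l t ∧ l t < s + 1 ∧ q s = q (l t)))) :
    ∃ w e f : ℂ, ∃ δ > 0, 0 < (w * e).re ∧ 0 < (w * f).re ∧
      (∀ h : ℝ, 0 ≤ h → h < δ → q (l (t + h)) = q (l t) + h * f) ∧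
      (∀ h : ℝ, 0 ≤ h → h < δ → q (l (t - h)) = q (l t) - h * e) := by
  obtain ⟨κ, hκ, δ, hδ, hr⟩ := hr
  obtain ⟨s, κ', δ', hκ', hδ', hl, hs⟩ := hl
  -- from germs of `q` to germs of the composition
  have fin : ∀ (w e f : ℂ) (η : ℝ), 0 < η → 0 < (w * e).re → 0 < (w * f).re →
      (∀ x, 0 ≤ x → x ≤ η → q (l t + x) = q (l t) + x * f) →
      (∀ x, 0 ≤ x → x ≤ η → q (s - x) = q (l t) - x * e) →
      ∃ w e f : ℂ, ∃ δ > 0, 0 < (w * e).re ∧ 0 < (w * f).re ∧
      (∀ h : ℝ, 0 ≤ h → h < δ → q (l (t + h)) = q (l t) + h * f) ∧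
      (∀ h : ℝ, 0 ≤ h → h < δ → q (l (t - h)) = q (l t) - h * e) := by
    intro w e f η hη he hf h1 h2
    refine ⟨w, κ' * e, κ * f, min (min δ δ') (min (η / κ) (η / κ')), by positivity, ?_, ?_, ?_, ?_⟩
    · rw [mul_left_comm, re_ofReal_mul]; exact mul_pos hκ' he
    · rw [mul_left_comm, re_ofReal_mul]; exact mul_pos hκ hf
    · intro h h0 hh
      rw [lt_min_iff, lt_min_iff, lt_min_iff, lt_div_iff₀ hκ, lt_div_iff₀ hκ'] at hh
      rw [hr h h0 hh.1.1, h1 (κ * h) (by positivity) (by nlinarith [hh.2.1])]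
      push_cast; ring
    · intro h h0 hh
      rw [lt_min_iff, lt_min_iff, lt_min_iff, lt_div_iff₀ hκ, lt_div_iff₀ hκ'] at hh
      rcases eq_or_lt_of_le h0 with h00 | h00
      · rw [← h00]; simp
      · rw [hl h h00 hh.1.2, h2 (κ' * h) (by positivity) (by nlinarith [hh.2.2])]
        push_cast; ring
  rcases hs with rfl | ⟨hs1, hs2, hs3⟩
  · rcases P (l t) with ⟨e, f, w, η, H⟩ | ⟨s1, e, d, η, H⟩
    · exact fin w e f η H.hη H.he H.hf (fun x h0 h1 => H.fwd x ⟨h0, h1⟩)
        (fun x h0 h1 => H.bwd x ⟨h0, h1⟩)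
    · have he0 : e ≠ 0 := by
        rintro rfl
        exact H.tv (by unfold cr; simp)
      have hp : 0 < ((starRingEnd ℂ) e * e).re := by
        rw [← Complex.normSq_eq_conj_mul_self, ofReal_re]
        exact normSq_pos.2 he0
      refine fin ((starRingEnd ℂ) e) e e η H.hη hp hp (fun x h0 h1 => ?_) (fun x h0 h1 => ?_)
      · exact H.l0 x (by rw [abs_of_nonneg h0]; exact h1)
      · have := H.l0 (-x) (by rw [abs_neg, abs_of_nonneg h0]; exact h1)
        rw [← sub_eq_add_neg] at this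
        rw [this]; push_cast; ring
  · have hnot : ∀ n : ℤ, l t ≠ s + n := by
      intro n hn
      have h1 : (0 : ℝ) < n := by linarith
      have h2 : (n : ℝ) < 1 := by linarith
      have h3 : (0 : ℤ) < n := by exact_mod_cast h1
      have h4 : n < (1 : ℤ) := by exact_mod_cast h2
      omega
    rcases P s with ⟨e, f, w, η, H⟩ | ⟨s1, e, d, η, H⟩
    · obtain ⟨n, hn⟩ := H.fib (l t) hs3.symm
      exact absurd hn (hnot n)
    · rcases H.fib (l t) hs3.symm with ⟨n, hn⟩ | ⟨n, hn⟩
      · exact absurd hn (hnot n)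
      · obtain ⟨τ, hτ1⟩ : ∃ τ : ℝ, 0 < τ * cr d e := by
          rcases lt_or_gt_of_ne H.tv with h | h
          · exact ⟨-1, by linarith⟩
          · exact ⟨1, by linarith⟩
        refine fin (((τ : ℝ) : ℂ) * (starRingEnd ℂ) (I * (d - e))) e d η H.hη ?_ ?_
          (fun x h0 h1 => ?_) (fun x h0 h1 => ?_)
        · have : (((τ : ℝ) : ℂ) * (starRingEnd ℂ) (I * (d - e)) * e).re = τ * cr d e := by
            rw [mul_assoc, re_ofReal_mul]
            congr 1
            unfold cr; simp; ring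
          rw [this]; exact hτ1
        · have : (((τ : ℝ) : ℂ) * (starRingEnd ℂ) (I * (d - e)) * d).re = τ * cr d e := by
            rw [mul_assoc, re_ofReal_mul]
            congr 1
            unfold cr; simp; ring
          rw [this]; exact hτ1
        · have h3 := H.l1 x (by rw [abs_of_nonneg h0]; exact h1)
          rw [hn, show s1 + (n : ℝ) + x = s1 + x + n by ring, L.per_int, h3, L.per_int]
        · have h3 := H.l0 (-x) (by rw [abs_neg, abs_of_nonneg h0]; exact h1)
          rw [← sub_eq_add_neg] at h3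
          rw [h3, hs3]; push_cast; ring

/-- periodic extension of a change of the parameter -/
noncomputable def ext (a v : ℝ) (l0 : ℝ → ℝ) (t : ℝ) : ℝ :=
  (if t - ⌊t - a⌋ ≤ v then l0 (t - ⌊t - a⌋) else t - ⌊t - a⌋) + ⌊t - a⌋

theorem ext_add (a v : ℝ) (l0 : ℝ → ℝ) (t : ℝ) (n : ℤ) :
    ext a v l0 (t + n) = ext a v l0 t + n := by
  unfold ext
  have h1 : ⌊t + n - a⌋ = ⌊t - a⌋ + n := by
    rw [show t + (n : ℝ) - a = t - a + n by ring, Int.floor_add_intCast]
  rw [h1]
  push_cast
  rw [show t + (n : ℝ) - (⌊t - a⌋ + n) = t - ⌊t - a⌋ by ring]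
  ring

theorem ext_eq {a v : ℝ} (l0 : ℝ → ℝ) {t : ℝ} (h1 : a ≤ t) (h2 : t < a + 1) :
    ext a v l0 t = if t ≤ v then l0 t else t := by
  unfold ext
  have h3 : ⌊t - a⌋ = 0 := by
    rw [Int.floor_eq_iff]
    push_cast
    constructor <;> linarith
  rw [h3]
  simp

theorem ext_shift (a v : ℝ) (l0 : ℝ → ℝ) (t : ℝ) : ∃ (t' : ℝ) (n : ℤ), a ≤ t' ∧ t' < a + 1 ∧
    t = t' + n := by
  refine ⟨t - ⌊t - a⌋, ⌊t - a⌋, ?_, ?_, by ring⟩
  · have := Int.floor_le (t - a)
    linarith
  · have := Int.lt_floor_add_one (t - a)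
    linarith

theorem core {q : ℝ → ℂ} (L : Loop q) (P : PLc q) {a ρ η : ℝ} (hη : 0 < η) (hηρ : 4 * η < ρ)
    (hρ : ρ ≤ 1 / 4) (hcl : ∀ x y, |x - a| < ρ → q x = q y → ∃ n : ℤ, y = x + n)
    {l0 : ℝ → ℝ} (E : Ed q a (a + 1 - ρ / 2) η l0) :
    ∃ l : ℝ → ℝ, StrictMono l ∧ (∀ t, l (t + 1) = l t + 1) ∧ (∀ t, |l t - t| ≤ η) ∧
    Loop (fun t => q (l t)) ∧ Inj (fun t => q (l t)) ∧ ∀ s, Mon (fun t => q (l t)) s := by
  obtain ⟨v, hv⟩ : ∃ v, v = a + 1 - ρ / 2 := ⟨_, rfl⟩
  rw [← hv] at E
  have hav : a < v := by linarith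
  have hv1 : v < a + 1 := by linarith
  obtain ⟨l, hl⟩ : ∃ l, l = ext a v l0 := ⟨_, rfl⟩
  have ladd : ∀ (t : ℝ) (n : ℤ), l (t + n) = l t + n := fun t n => by rw [hl]; exact ext_add a v l0 t n
  have lA : ∀ t, a ≤ t → t ≤ v → l t = l0 t := by
    intro t h1 h2
    rw [hl, ext_eq l0 h1 (by linarith), if_pos h2]
  have lB : ∀ t, v ≤ t → t < a + 1 → l t = t := by
    intro t h1 h2
    rcases eq_or_lt_of_le h1 with h | h
    · rw [← h, lA v hav.le le_rfl, E.lv]
    · rw [hl, ext_eq l0 (by linarith) h2, if_neg (not_le.2 h)]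
  have hval : ∀ t, a ≤ t → t ≤ v → a ≤ l0 t ∧ l0 t ≤ v := by
    intro t h1 h2
    constructor
    · rw [← E.lu]
      exact E.mono.monotoneOn ⟨le_rfl, hav.le⟩ ⟨h1, h2⟩ h1
    · rw [← E.lv]
      exact E.mono.monotoneOn ⟨h1, h2⟩ ⟨hav.le, le_rfl⟩ h2
  have hrange : ∀ t, a ≤ t → t < a + 1 → a ≤ l t ∧ l t < a + 1 := by
    intro t h1 h2
    rcases le_total t v with h | h
    · rw [lA t h1 h]
      exact ⟨(hval t h1 h).1, (hval t h1 h).2.trans_lt hv1⟩
    · rw [lB t h h2]
      exact ⟨h1, h2⟩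
  have hmono0 : ∀ x y, a ≤ x → x < y → y < a + 1 → l x < l y := by
    intro x y hx hxy hy
    rcases le_total y v with h | h
    · rw [lA x hx (by linarith), lA y (by linarith) h]
      exact E.mono ⟨hx, by linarith⟩ ⟨by linarith, h⟩ hxy
    · rw [lB y h hy]
      rcases le_total x v with h' | h'
      · rcases eq_or_lt_of_le h with h'' | h''
        · have h3 := E.mono (a := x) (b := v) ⟨hx, h'⟩ ⟨hav.le, le_rfl⟩ (by linarith)
          rw [E.lv] at h3
          rw [lA x hx h']
          linarith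
        · rw [lA x hx h']
          exact (hval x hx h').2.trans_lt h''
      · rw [lB x h' (by linarith)]
        exact hxy
  have hmono : StrictMono l := by
    intro x y hxy
    obtain ⟨x', n, hx1, hx2, hx⟩ := ext_shift a v l0 x
    obtain ⟨y', m, hy1, hy2, hy⟩ := ext_shift a v l0 y
    rw [hx, hy, ladd, ladd]
    have hnm : n ≤ m := by
      by_contra hcon
      push Not at hcon
      have : (m : ℝ) + 1 ≤ n := by exact_mod_cast hcon
      linarith
    rcases eq_or_lt_of_le hnm with h | h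
    · subst h
      have := hmono0 x' y' hx1 (by linarith) hy2
      linarith
    · have h' : (n : ℝ) + 1 ≤ m := by exact_mod_cast h
      have h1 := (hrange x' hx1 hx2).2
      have h2 := (hrange y' hy1 hy2).1
      linarith
  have hper : ∀ t, l (t + 1) = l t + 1 := by
    intro t
    have := ladd t 1
    simpa using this
  have hnear : ∀ t, |l t - t| ≤ η := by
    intro t
    obtain ⟨t', n, h1, h2, h3⟩ := ext_shift a v l0 t
    rw [h3, ladd, show l t' + (n : ℝ) - (t' + n) = l t' - t' by ring]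
    rcases le_total t' v with h | h
    · rw [lA t' h1 h]
      exact E.near t' ⟨h1, h⟩
    · rw [lB t' h h2, sub_self, abs_zero]
      exact hη.le
  -- germs of the change of the parameter
  have hright : ∀ t, ∃ κ > 0, ∃ δ > 0, ∀ h, 0 ≤ h → h < δ → l (t + h) = l t + κ * h := by
    intro t
    obtain ⟨t', n, h1, h2, h3⟩ := ext_shift a v l0 t
    have hsh : ∀ h, l (t + h) = l (t' + h) + n := by
      intro h
      rw [← ladd, h3]
      congr 1
      ring
    rcases lt_or_ge t' v with h | h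
    · obtain ⟨κ, hκ, δ, hδ, H⟩ := E.right t' h1 h
      refine ⟨κ, hκ, min δ (v - t'), lt_min hδ (by linarith), fun x hx0 hx => ?_⟩
      rw [lt_min_iff] at hx
      have e1 := hsh 0
      rw [add_zero, add_zero] at e1
      rw [hsh x, e1, lA (t' + x) (by linarith) (by linarith), lA t' h1 h.le, H x hx0 hx.1]
      ring
    · refine ⟨1, one_pos, a + 1 - t', by linarith, fun x hx0 hx => ?_⟩
      have e1 := hsh 0
      rw [add_zero, add_zero] at e1
      rw [hsh x, e1, lB (t' + x) (by linarith) (by linarith), lB t' h h2]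
      ring
  have hleft : ∀ t, ∃ s κ δ, 0 < κ ∧ 0 < δ ∧ (∀ h, 0 < h → h < δ → l (t - h) = s - κ * h) ∧
      (s = l t ∨ (s < l t ∧ l t < s + 1 ∧ q s = q (l t))) := by
    intro t
    obtain ⟨t', n, h1, h2, h3⟩ := ext_shift a v l0 t
    have hsh : ∀ h, l (t - h) = l (t' - h) + n := by
      intro h
      rw [← ladd, h3]
      congr 1
      ring
    have e1 := hsh 0
    rw [sub_zero, sub_zero] at e1
    rcases eq_or_lt_of_le h1 with h | h
    · -- `t' = a`
      refine ⟨l t, 1, ρ / 2, one_pos, by linarith, fun x hx0 hx => ?_, Or.inl rfl⟩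
      have h4 : l (t' - x) = l (t' - x + 1) - 1 := by rw [hper]; ring
      rw [hsh x, h4, lB (t' - x + 1) (by linarith) (by linarith), e1, ← h, lA a le_rfl hav.le, E.lu]
      ring
    · rcases le_or_gt t' v with h' | h'
      · obtain ⟨s, κ, δ, hs, hκ, hδ, H, H2⟩ := E.left t' h h'
        refine ⟨s + n, κ, min δ (t' - a), hκ, lt_min hδ (by linarith), fun x hx0 hx => ?_, ?_⟩
        · rw [lt_min_iff] at hx
          rw [hsh x, lA (t' - x) (by linarith) (by linarith), H x hx0 hx.1]
          ring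
        · rw [e1, lA t' h1 h']
          rcases H2 with H2 | ⟨H2, H3⟩
          · left; rw [H2]
          · right
            refine ⟨by linarith, ?_, ?_⟩
            · have := (hval t' h1 h').2
              linarith
            · rw [L.per_int, L.per_int, H3]
      · refine ⟨l t, 1, t' - v, one_pos, by linarith, fun x hx0 hx => ?_, Or.inl rfl⟩
        rw [hsh x, lB (t' - x) (by linarith) (by linarith), e1, lB t' h'.le h2]
        ring
  have G := fun t => germs L P (hright t) (hleft t)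
  refine ⟨l, hmono, hper, hnear, ⟨?_, ?_⟩, ?_, ?_⟩
  · rw [continuous_iff_continuousAt]
    intro t
    obtain ⟨w, e, f, δ, hδ, _, _, h1, h2⟩ := G t
    exact cont_of_germs (p := fun t => q (l t)) hδ h1 h2
  · intro t
    rw [hper, L.per]
  · -- injectivity
    have clean : ∀ x y, x < y → y < x + 1 → v ≤ x → x < a + 1 → q (l x) = q (l y) → False := by
      intro x y hxy hyx hx1 hx2 he
      have e1 : l x = x := lB x hx1 hx2
      have h1 := hmono hxy
      have h2 := hmono hyx
      rw [hper] at h2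
      have h3 : q (x - 1) = q (l y) := by
        rw [← he, e1, ← L.per (x - 1), sub_add_cancel]
      obtain ⟨n, hn⟩ := hcl (x - 1) (l y) (by rw [abs_lt]; constructor <;> linarith) h3
      rw [e1] at h1 h2
      have h4 : (1 : ℝ) < n := by linarith
      have h5 : (n : ℝ) < 2 := by linarith
      have h4' : (1 : ℤ) < n := by exact_mod_cast h4
      have h5' : n < (2 : ℤ) := by exact_mod_cast h5
      omega
    have clean2 : ∀ x y, x < y → y < x + 1 → v ≤ y → y < a + 1 → q (l x) = q (l y) → False := by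
      intro x y hxy hyx hy1 hy2 he
      have e1 : l y = y := lB y hy1 hy2
      have h1 := hmono hxy
      have h2 := hmono hyx
      rw [hper] at h2
      have h3 : q (y - 1) = q (l x) := by
        rw [he, e1, ← L.per (y - 1), sub_add_cancel]
      obtain ⟨n, hn⟩ := hcl (y - 1) (l x) (by rw [abs_lt]; constructor <;> linarith) h3
      rw [e1] at h1 h2
      have h4 : (0 : ℝ) < n := by linarith
      have h5 : (n : ℝ) < 1 := by linarith
      have h4' : (0 : ℤ) < n := by exact_mod_cast h4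
      have h5' : n < (1 : ℤ) := by exact_mod_cast h5
      omega
    have base : ∀ x y, a ≤ x → x < a + 1 → x < y → y < x + 1 → q (l x) = q (l y) → False := by
      intro x y hx1 hx2 hxy hyx he
      rcases le_or_gt v x with hxv | hxv
      · exact clean x y hxy hyx hxv hx2 he
      · rcases lt_or_ge y (a + 1) with hy | hy
        · rcases le_or_gt v y with hyv | hyv
          · exact clean2 x y hxy hyx hyv hy he
          · rw [lA x hx1 hxv.le, lA y (by linarith) hyv.le] at he
            have := E.inj x ⟨hx1, hxv.le⟩ y ⟨by linarith, hyv.le⟩ he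
            linarith
        · have e1 : l y = l (y - 1) + 1 := by rw [← hper, sub_add_cancel]
          rw [e1, L.per, lA x hx1 hxv.le, lA (y - 1) (by linarith) (by linarith)] at he
          have := E.inj x ⟨hx1, hxv.le⟩ (y - 1) ⟨by linarith, by linarith⟩ he
          linarith
    intro x y hxy hyx he
    obtain ⟨x', n, h1, h2, h3⟩ := ext_shift a v l0 x
    refine base x' (y - n) h1 h2 (by linarith) (by linarith) ?_
    have e1 : q (l x) = q (l x') := by rw [h3, ladd, L.per_int]
    have e2 : q (l y) = q (l (y - n)) := by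
      have := ladd (y - n) n
      rw [sub_add_cancel] at this
      rw [this, L.per_int]
    rw [← e1, ← e2]
    exact he
  · intro t
    obtain ⟨w, e, f, δ, hδ, he, hf, h1, h2⟩ := G t
    exact mon_of_germs (p := fun t => q (l t)) hδ he hf h1 h2

theorem er {q : ℝ → ℂ} (L : Loop q) {a ρ η : ℝ} (hη : 0 < η) (hηρ : 4 * η < ρ)
    (hρ : ρ ≤ 1 / 4) (hcl : ∀ x y, |x - a| < ρ → q x = q y → ∃ n : ℤ, y = x + n)
    (hsh : ∀ x y, x < y → y < x + 1 → q x = q y → y - x < η ∨ x + 1 - y < η)
    (hfin : {p : ℝ × ℝ | a ≤ p.1 ∧ p.1 < p.2 ∧ p.2 ≤ a + 1 - ρ / 2 ∧ q p.1 = q p.2}.Finite) :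
    Er q a (a + 1 - ρ / 2) η := by
  refine ⟨by linarith, hη.le, hfin, ?_, ?_, ?_⟩
  · intro x y hx hxy hy he
    rcases hsh x y hxy (by linarith) he with h | h
    · exact h.le
    · linarith
  · intro y hy1 hy2 he
    obtain ⟨n, hn⟩ := hcl a y (by rw [sub_self, abs_zero]; linarith) he
    have h4 : (0 : ℝ) < n := by linarith
    have h5 : (n : ℝ) < 1 := by linarith
    have h4' : (0 : ℤ) < n := by exact_mod_cast h4
    have h5' : n < (1 : ℤ) := by exact_mod_cast h5
    omega
  · intro x hx1 hx2 he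
    have e1 : q (a - ρ / 2) = q x := by
      rw [he, ← L.per (a - ρ / 2)]
      congr 1
      ring
    obtain ⟨n, hn⟩ := hcl (a - ρ / 2) x (by rw [abs_lt]; constructor <;> linarith) e1
    have h4 : (0 : ℝ) < n := by linarith
    have h5 : (n : ℝ) < 1 := by linarith
    have h4' : (0 : ℤ) < n := by exact_mod_cast h4
    have h5' : n < (1 : ℤ) := by exact_mod_cast h5
    omega

theorem loopP : S_E → S_P := by
  intro hE q G P a ρ η hη hηρ hρ hcl hsh
  have hfin : {p : ℝ × ℝ | a ≤ p.1 ∧ p.1 < p.2 ∧ p.2 ≤ a + 1 - ρ / 2 ∧ q p.1 = q p.2}.Finite := by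
    refine (G.fin (|a| + 1)).subset ?_
    rintro ⟨x, y⟩ ⟨h1, h2, h3, h4⟩
    simp only at h1 h2 h3 h4
    refine ⟨dbl_mem h2 (by linarith) h4, ?_⟩
    simp only [mem_setOf_eq]
    rw [abs_le]
    have h5 := neg_abs_le a
    have h6 := le_abs_self a
    constructor <;> linarith
  obtain ⟨l0, E⟩ := hE q a (a + 1 - ρ / 2) η (er G.L hη hηρ hρ hcl hsh hfin)
  exact core G.L P hη hηρ hρ hcl E

end Pool.Agent.Y255.PEG
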